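import Mathlib
import Pool.Agent.Helper30.InstabDefs
import Pool.Agent.Helper30.InstabPolyDef
import Pool.Agent.Helper30.InstabFinal

/-!
Q2 has a positive answer, in the stronger form in which only one of the two spaces has to be a
polyhedron: pseudo-instability of a point is a local property as soon as one of the two continua is
a polyhedron.

Idea. If the point `y` of `Y` is pseudo-unstable, then there are maps of a neighbourhood of `y`,
arbitrarily close to the inclusion, which miss `y`. If `Y` looks near `y` like a polyhedron `X` near
`x`, one such map and the cone structure of `X` around `x` (the link of `x` becomes contractible)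
give an instability of `x` in `X` along the unit interval. Instability along the unit interval is a
local property, by a cut-off of the time parameter.
-/

namespace Pool.Agent.Results.MP_a217de_gt.LocalPolyhedra

open Pool.Agent.Helper30.Instab

/-- Let `X` be a polyhedron and `Y` a continuum, and let `x ∈ X` and `y ∈ Y` have homeomorphic
neighbourhoods, by a homeomorphism sending `x` to `y`. Then `x` is pseudo-unstable in `X` if and only
if `y` is pseudo-unstable in `Y`. -/
theorem result.{v₁, v₂, u, w} (X : Type u) [TopologicalSpace X] (Y : Type w) [TopologicalSpace Y]
    (x : X) (y : Y) (hX : IsPolyhedron X) (hY : IsContinuum Y)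
    (h : LocallyHomeomorphicAt X x Y y) :
    PseudoUnstable.{v₁} X x ↔ PseudoUnstable.{v₂} Y y :=
  local_polyhedra X Y x y hX hY h

end Pool.Agent.Results.MP_a217de_gt.LocalPolyhedra
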