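import Mathlib
import Pool.Agent.Helper30.InstabDefs
import Pool.Agent.Helper30.InstabExample

/-!
Q1 has a negative answer: pseudo-instability of a point of a continuum is not a local property.

The example. Let `S` be a disc together with a ray spiralling down to its boundary circle, realised
as the compact monoid `S = {(x, w) ∈ [0,1] × D : x = 0 or w = exp (-i log x)}`; its unit `(1,1)` and
its zero `(0,0)` lie in different path components.  Let `C` be the closed submonoid
`{s ∈ S ^ ℕ : s_k = 1 or s_j = 0 whenever k < j}`; it is a continuum whose unit `1` is a path
component, and `s t = 1` only for `s = t = 1`.  Put `X = [1,3] × C`, let `Y` be `X` with the arc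
`[0,1] × {1}` attached at `(1,1)`, and let `p = (2,1)`.  The multiplication of `C` makes `p`
pseudo-unstable in `X`.  In `Y` every self-map close to the identity maps the arc `[0,3] × {1}`
into itself (it maps `(0,1)` into the open piece `[0,1) × {1}`, and `{1}` is a path component of
`C`), so it hits `p`.
-/

namespace Pool.Agent.Results.MP_a217de_gt.NotLocal

open Pool.Agent.Helper30.Instab

/-- There are continua `X`, `Y` and points `x`, `y` with homeomorphic neighbourhoods (by a
homeomorphism sending `x` to `y`) such that `x` is pseudo-unstable in `X` and `y` is not
pseudo-unstable in `Y`. -/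
theorem result.{v} :
    ∃ (X Y : Type) (_ : TopologicalSpace X) (_ : TopologicalSpace Y) (x : X) (y : Y),
      IsContinuum X ∧ IsContinuum Y ∧ LocallyHomeomorphicAt X x Y y ∧
        PseudoUnstable.{0} X x ∧ ¬ PseudoUnstable.{v} Y y :=
  ⟨XSet, YSet, inferInstance, inferInstance, xpt, ypt, XSet_continuum, YSet_continuum, locHomeo,
    X_pseudoUnstable, Y_not_pseudoUnstable⟩

end Pool.Agent.Results.MP_a217de_gt.NotLocal
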